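import Mathlib
import Pool.Agent.H522.LW4

/-! # Exact windows of primes in the sieve classes, at the scale of Linnik's theorem

Let `V_j(k)` be the set of the positions `1 ≤ i ≤ k` for which `j + i` has no prime factor `≤ k`. It is possible that
`|V_j(k)| > π(k)` (Hensley and Richards), and the question is how many elements of a window `(x, x + k]` with
`x ≡ j` modulo the primes `≤ k` can be prime for arbitrarily large `x`. Here `x` is as small as it can be up to a constant
power. For all large `k`, ALL classes `j` modulo the product of the primes `≤ k` (one prime is left out because of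
a possible exceptional zero) and ALL sets `T ⊆ V_j(k)` of at least `K(m)` positions:

* (1) at least `(|T| / K) ^ m` sets `F ⊆ T` are good: `m ≤ |F| ≤ K`, and `F` is the EXACT set of the positions of the
  primes in at least `2 ^ k` windows `(x, x + k]` with `x ≤ 2 ^ (A k)` in this class;
* (2) a positive proportion of the `m`-element sets `D ⊆ T` is such that every `E ⊆ D` is the intersection with `D` of a
  good set `F ⊆ T`: all `2 ^ m` patterns of primes and composite numbers on the positions `D` occur.

So the windows have length `≥ (log x) / A`, and `j` and `T` may depend on `x`.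

The many primes in forms with coefficients up to a power of `x` come from `Pool.Agent.H536.LS.evLS` (a variant of a
theorem of the starting files, `Pool.Agent.H262R3.Lk`). The survivors outside of `T` are removed by prime moduli
`> k`; for this the number of the survivors is bounded by a sieve. Part (2) follows from the number of the good sets
inside all sets of `N(m)` survivors and the lemma of Pajor, Sauer and Shelah. -/

set_option autoImplicit false

open Finset

namespace Pool.Agent.Results.MP_5046ca_nt.ExactSieveWindowsLinnikScale

/-- the positions `1 ≤ i ≤ k` such that no prime `≤ k` divides `j + i` -/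
def survivors (j k : ℕ) : Finset ℕ := (Icc 1 k).filter (fun i => ∀ p ≤ k, p.Prime → ¬ p ∣ j + i)

/-- the integers `2 ^ k ≤ x ≤ 2 ^ (A k)` with `x ≡ j` modulo all primes `≤ k` other than `P` such that `F` is
exactly the set of the positions of the primes in the window `(x, x + k]` -/
def windows (A P j k : ℕ) (F : Finset ℕ) : Set ℕ :=
  {x : ℕ | 2 ^ k ≤ x ∧ x ≤ 2 ^ (A * k) ∧ (∀ p ≤ k, p.Prime → p ≠ P → x ≡ j [MOD p]) ∧
    ∀ i ∈ Icc 1 k, ((x + i).Prime ↔ i ∈ F)}

/-- `F` has at least `m` and at most `K` elements and is the exact set of the positions of the primes in at least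
`2 ^ k` windows -/
def Good (A P j k m K : ℕ) (F : Finset ℕ) : Prop := m ≤ #F ∧ #F ≤ K ∧ 2 ^ k ≤ (windows A P j k F).ncard

theorem result (m : ℕ) (hm : 1 ≤ m) : ∃ K A : ℕ, 1 ≤ K ∧ ∀ B : ℕ, ∃ k₀ : ℕ, ∀ k : ℕ, k₀ ≤ k →
    ∃ P : ℕ, P.Prime ∧ (B : ℝ) * Real.log k < P ∧
      ∀ (j : ℕ) (T : Finset ℕ), T ⊆ survivors j k → K ≤ #T →
        -- (1) the number of the good sets
        ((#T : ℝ) / K) ^ m ≤ (Set.ncard {F : Finset ℕ | F ⊆ T ∧ Good A P j k m K F} : ℝ) ∧
        -- (2) the number of the sets of `m` positions with all patterns
        ((#T : ℝ) / K) ^ m ≤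
          (Set.ncard {D : Finset ℕ | D ⊆ T ∧ #D = m ∧ ∀ E ⊆ D, ∃ F ⊆ T, F ∩ D = E ∧ Good A P j k m K F} : ℝ) :=
  Pool.Agent.H522.LW.main_indep m hm

end Pool.Agent.Results.MP_5046ca_nt.ExactSieveWindowsLinnikScale
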