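import Pool.Agent.H530.HaL
import Pool.Graph.R_seed8.Y879.PR.Win

/-!
# Maximal windows of almost primes, half of which have an odd number of prime factors

`R y` is the largest number of elements of an admissible subset of `[0, y)`; it exceeds `π(y)` by
`α y log log log y / (log y) ^ 2` for every `α < 1 / 2` and all large `y` (library), and no window of
`y` consecutive integers contains more than `R y` integers without prime factor `≤ y`.

For every admissible pattern `S ⊆ [0, y)`, in particular for the maximal ones, a positive proportion of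
the expected order `N / (log N) ^ |S|` of the `n ≤ N` is such that `S` is the exact pattern of the integers
without prime factor `≤ N ^ (1 / B)` in the window `[n, n + y)`, and at least half of these integers (for
every choice of real weights on `S`) have an odd number of prime factors, as primes do.
-/

set_option autoImplicit false

namespace Pool.Agent.Results.MP_5046ca_nt.HalfOddWindows

open Finset Filter

/-- `S` is admissible: for every prime `q` there is an `a` such that `q` divides no `a + s`, `s ∈ S` -/
def Admissible (S : Finset ℕ) : Prop := ∀ q : ℕ, q.Prime → ∃ a : ℕ, ∀ s ∈ S, ¬ q ∣ a + s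

open Classical in
/-- the largest number of elements of an admissible set of integers in `[0, y)` -/
noncomputable def R (y : ℕ) : ℕ := ((range y).powerset.filter Admissible).sup Finset.card

open Classical in
/-- the `n ≤ N` such that, for `i < y`, every prime factor `p` of `n + i` has `p ^ B > N` if and only if
`i ∈ S`, such that `n + s` has at most `B` prime factors (with multiplicity) for all `s ∈ S`, and such
that the `s ∈ S` for which this number is odd have at least half of the weight: the sum over `s ∈ S` of
`w s`, with sign `+` if the number of prime factors of `n + s` is odd and `-` if it is even, is `≥ 0` -/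
noncomputable def Win (y B N : ℕ) (S : Finset ℕ) (w : ℕ → ℝ) : Finset ℕ :=
  (Icc 1 N).filter (fun n => (∀ i < y, (∀ p : ℕ, p.Prime → p ∣ n + i → N < p ^ B) ↔ i ∈ S) ∧
    (∀ s ∈ S, ArithmeticFunction.cardFactors (n + s) ≤ B) ∧
    ∑ s ∈ S.filter (fun s => Even (ArithmeticFunction.cardFactors (n + s))), w s ≤
      ∑ s ∈ S.filter (fun s => Odd (ArithmeticFunction.cardFactors (n + s))), w s)

/-- no window of `y` consecutive integers contains more than `R y` integers without prime factor
`≤ y` -/
theorem upper (y n : ℕ) (U : Finset ℕ) (hU : U ⊆ range y)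
    (h : ∀ i ∈ U, ∀ p : ℕ, p.Prime → p ∣ n + i → y < p) : U.card ≤ R y := by
  classical
  have hadm : Admissible U := by
    intro q hq
    by_cases hqy : q ≤ y
    · refine ⟨n, fun i hi hd => ?_⟩
      have h1 := h i hi q hq hd
      omega
    · -- more classes than elements
      push Not at hqy
      have : NeZero q := ⟨hq.ne_zero⟩
      have hcard : (U.image (fun i => (-(i : ℕ) : ZMod q))).card <
          (Finset.univ : Finset (ZMod q)).card := by
        refine lt_of_le_of_lt Finset.card_image_le ?_
        rw [Finset.card_univ, ZMod.card]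
        exact lt_of_le_of_lt (card_le_card hU) (by rw [card_range]; exact hqy)
      obtain ⟨c, -, hc⟩ := Finset.exists_mem_notMem_of_card_lt_card hcard
      refine ⟨c.val, fun i hi hd => hc ?_⟩
      rw [Finset.mem_image]
      refine ⟨i, hi, ?_⟩
      have := (ZMod.natCast_eq_zero_iff (c.val + i) q).2 hd
      push_cast at this
      rw [ZMod.natCast_zmod_val] at this
      linear_combination -this
  unfold R
  exact Finset.le_sup (f := Finset.card) (mem_filter.2 ⟨mem_powerset.2 hU, hadm⟩)

/-- **Maximal windows of almost primes, half of them odd.** -/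
theorem result :
    -- the number `R y` and its meaning
    (∀ α : ℝ, α < 1 / 2 → ∃ y₀ : ℕ, ∀ y : ℕ, y₀ ≤ y →
      (Nat.primeCounting y : ℝ) + α * (y * Real.log (Real.log (Real.log y)) / Real.log y ^ 2) ≤ R y) ∧
    (∀ y : ℕ, ∃ S : Finset ℕ, S ⊆ range y ∧ Admissible S ∧ S.card = R y) ∧
    (∀ y n : ℕ, ∀ U : Finset ℕ, U ⊆ range y → (∀ i ∈ U, ∀ p : ℕ, p.Prime → p ∣ n + i → y < p) →
      U.card ≤ R y) ∧
    -- every admissible pattern, half of it with an odd number of prime factors
    ∀ y : ℕ, ∀ S : Finset ℕ, S ⊆ range y → Admissible S → S.Nonempty →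
      ∃ (B N₀ : ℕ) (c : ℝ), 0 < c ∧ ∀ N : ℕ, N₀ ≤ N → ∀ w : ℕ → ℝ,
        c * (N / Real.log N ^ S.card) ≤ ((Win y B N S w).card : ℝ) := by
  classical
  refine ⟨?_, ?_, fun y n U hU h => upper y n U hU h, ?_⟩
  · intro α hα
    obtain ⟨y0, h⟩ := Pool.Agent.Y879.PR.rh_low hα
    refine ⟨y0, fun y hy => ?_⟩
    have := h y hy
    exact this
  · intro y
    have hne : ((range y).powerset.filter Admissible).Nonempty :=
      ⟨∅, mem_filter.2 ⟨by simp, fun q _ => ⟨0, by simp⟩⟩⟩
    obtain ⟨S, hS, hSc⟩ := Finset.exists_mem_eq_sup _ hne Finset.card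
    obtain ⟨hS1, hS2⟩ := mem_filter.1 hS
    rw [mem_powerset] at hS1
    exact ⟨S, hS1, hS2, hSc.symm⟩
  · intro y S hS hadm hne
    obtain ⟨B, N0, c, hc, H⟩ := Pool.Agent.H530.Ha.windows y S hS hadm hne
    refine ⟨B, N0, c, hc, fun N hN w => (H N hN (fun s => - w s)).trans ?_⟩
    apply Nat.cast_le.2
    apply card_le_card
    intro n hn
    rw [Pool.Agent.H530.Ha.Wn, mem_filter] at hn
    rw [Win, mem_filter]
    refine ⟨hn.1, hn.2.1, hn.2.2.1, ?_⟩
    have h1 := hn.2.2.2
    rw [← sum_filter_add_sum_filter_not S (fun s => Even (ArithmeticFunction.cardFactors (n + s)))] at h1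
    have h2 : ∑ s ∈ S.filter (fun s => Even (ArithmeticFunction.cardFactors (n + s))),
        -w s * (-1 : ℝ) ^ ArithmeticFunction.cardFactors (n + s) =
        - ∑ s ∈ S.filter (fun s => Even (ArithmeticFunction.cardFactors (n + s))), w s := by
      rw [← sum_neg_distrib]
      apply sum_congr rfl
      intro s hs
      rw [(mem_filter.1 hs).2.neg_one_pow, mul_one]
    have h3 : S.filter (fun s => ¬ Even (ArithmeticFunction.cardFactors (n + s))) =
        S.filter (fun s => Odd (ArithmeticFunction.cardFactors (n + s))) := by
      apply filter_congr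
      intro s _
      exact Nat.not_even_iff_odd
    have h4 : ∑ s ∈ S.filter (fun s => Odd (ArithmeticFunction.cardFactors (n + s))),
        -w s * (-1 : ℝ) ^ ArithmeticFunction.cardFactors (n + s) =
        ∑ s ∈ S.filter (fun s => Odd (ArithmeticFunction.cardFactors (n + s))), w s := by
      apply sum_congr rfl
      intro s hs
      rw [(mem_filter.1 hs).2.neg_one_pow]
      ring
    rw [h2, h3, h4] at h1
    linarith

end Pool.Agent.Results.MP_5046ca_nt.HalfOddWindows
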