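import Pool.Agent.H559.UH.Lb
import Pool.Agent.H559.UH.Tl
import Pool.Agent.H559.UH.Dn
import Pool.Agent.H559.UH.En
import Pool.Agent.H559.UH.Mn
import Pool.Agent.H559.RW.Lim
import Pool.Agent.H559.HY.CutW
import Pool.Agent.H559.HY.FinBH
import Pool.Agent.H559.BS.Main

set_option autoImplicit false

/-!
# Record windows of the random primes: the function `ρ` of Hardy and Littlewood in the random sieve model

For every prime `q` a residue class `a q` modulo `q` is drawn uniformly and independently. The random primes are the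
integers `v ≥ 3` which are, for all primes `q ≤ z v`, not in the class `0` modulo `q` if `q ≤ (log v) ^ c`, and not in the
class `a q` modulo `q` if `q > (log v) ^ c`. This is the model of Banks, Ford and Tao (*Large prime gaps and
probabilistic models*) in which the small primes sieve out the class `0` as they do for the true primes. The sieving
limit `z` is any nondecreasing function for which `∏_{q ≤ z v} (1 - 1 / q)` is asymptotic to `1 / log v`; the choice `zBFT`
of Banks, Ford and Tao is one of them. The exponent `c` is any number larger than `1`.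

`Rstar y` is the largest number of elements of an admissible subset of `[0, y)`, and `rho A y` is the upper limit, `x → ∞`, of the
number of the elements of `A` in `(x, x + y]`. The theorem: almost surely, for all `y`, `rho R y = Rstar y` for the set `R` of the
random primes, and the number of the intervals `(x, x + y]` inside `(0, X]` with `Rstar y` random primes is asymptotic to
`c X / (log X) ^ (Rstar y)`, where `c > 0` is the sum of the singular series of the maximal admissible sets. As `Rstar y` exceeds `π(y)` by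
`α y log log log y / (log y) ^ 2` for every `α < 1 / 2` and all large `y` (library; Hensley and Richards, sharpened), `rho R y - π(y)` tends to
infinity almost surely: for random primes the answer is the opposite of the assertion of the question.
-/

open MeasureTheory ProbabilityTheory Filter Topology

namespace Pool.Agent.Results.MP_5046ca_nt.RecordWindowsRandomSieve

/-- `V m = ∏ (1 - 1 / q)` over the primes `q ≤ m` -/
noncomputable def V (m : ℕ) : ℝ := ∏ q ∈ (Finset.range (m + 1)).filter Nat.Prime, (1 - 1 / (q : ℝ))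

/-- the classes `a q` are independent, and `a q` is uniform on `0, …, q - 1` for every prime `q` -/
structure Model {Ω : Type} [MeasurableSpace Ω] (P : Measure Ω) (a : ℕ → Ω → ℕ) : Prop where
  measurable : ∀ q, Measurable (a q)
  independent : iIndepFun a P
  uniform : ∀ q, q.Prime → ∀ r < q, P.real {ω | a q ω = r} = 1 / q

/-- the sieving limit of Banks, Ford and Tao: the largest `m` with `∏_{q ≤ m} (1 - 1 / q)⁻¹ ≤ log n` -/
noncomputable def zBFT (n : ℕ) : ℕ := sSup {m : ℕ | (V m)⁻¹ ≤ Real.log n}

/-- the admissible sieving limits: the density of the random primes near `v` is asymptotic to `1 / log v` -/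
def Limit (z : ℕ → ℕ) : Prop := Monotone z ∧ Tendsto (fun v => V (z v) * Real.log v) atTop (𝓝 1)

open Classical in
/-- the set of the random primes of a sample -/
def R {Ω : Type} (z : ℕ → ℕ) (c : ℝ) (a : ℕ → Ω → ℕ) (ω : Ω) : Set ℕ :=
  {v | 3 ≤ v ∧ ∀ q ≤ z v, q.Prime → v % q ≠ if (q : ℝ) ≤ Real.log v ^ c then 0 else a q ω}

/-- `S` is admissible: for every prime `q` there is an `a` such that `q` divides no `a + s`, `s ∈ S` -/
def Admissible (S : Finset ℕ) : Prop := ∀ q : ℕ, q.Prime → ∃ a : ℕ, ∀ s ∈ S, ¬ q ∣ a + s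

open Classical in
/-- the largest number of elements of an admissible subset of `[0, y)` -/
noncomputable def Rstar (y : ℕ) : ℕ := ((Finset.range y).powerset.filter Admissible).sup Finset.card

open Classical in
/-- the admissible subsets of `[0, y)` with `Rstar y` elements -/
noncomputable def maximal (y : ℕ) : Finset (Finset ℕ) :=
  (Finset.range y).powerset.filter (fun S => Admissible S ∧ S.card = Rstar y)

/-- the partial products of the singular series -/
noncomputable def partialS (H : Finset ℕ) (N : ℕ) : ℝ :=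
  ∏ p ∈ (Finset.range (N + 1)).filter Nat.Prime, (1 - ((H.image (· % p)).card : ℝ) / p) / (1 - 1 / (p : ℝ)) ^ H.card

/-- the number of the elements of `A` in `(x, x + y]` -/
noncomputable def count (A : Set ℕ) (x y : ℕ) : ℕ := {v : ℕ | x < v ∧ v ≤ x + y ∧ v ∈ A}.ncard

/-- the upper limit of the number of the elements of `A` in `(x, x + y]`, `x → ∞` -/
noncomputable def rho (A : Set ℕ) (y : ℕ) : ℕ := limsup (fun x : ℕ => count A x y) atTop

/-- the number of the intervals `(x, x + y]` inside `(0, X]` with `r` elements of `A` -/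
noncomputable def windows (A : Set ℕ) (y r X : ℕ) : ℕ := {x : ℕ | x + y ≤ X ∧ count A x y = r}.ncard

theorem result :
    (∃ (Ω : Type) (_ : MeasurableSpace Ω) (P : Measure Ω) (a : ℕ → Ω → ℕ), Model P a) ∧ Limit zBFT ∧
    ∃ 𝔖 : Finset ℕ → ℝ, (∀ H, Tendsto (partialS H) atTop (𝓝 (𝔖 H)) ∧ (Admissible H → 0 < 𝔖 H)) ∧
      ∀ z : ℕ → ℕ, Limit z → ∀ c : ℝ, 1 < c →
        ∀ (Ω : Type) [MeasurableSpace Ω] (P : Measure Ω) (a : ℕ → Ω → ℕ), Model P a →
          ∀ᵐ ω ∂P,
            (∀ y : ℕ, rho (R z c a ω) y = Rstar y) ∧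
            (∀ y : ℕ, 1 ≤ y → 0 < ∑ S ∈ maximal y, 𝔖 S ∧
              Tendsto (fun X : ℕ => (windows (R z c a ω) y (Rstar y) X : ℝ) * Real.log X ^ Rstar y / X) atTop
                (𝓝 (∑ S ∈ maximal y, 𝔖 S))) ∧
            (∀ α : ℝ, α < 1 / 2 → ∀ᶠ y : ℕ in atTop,
              (Nat.primeCounting y : ℝ) + α * (y * Real.log (Real.log (Real.log y)) / Real.log y ^ 2) ≤
                rho (R z c a ω) y) := by
  classical
  have hspec := fun H : Finset ℕ => (Pool.Agent.H559.SI.pS_conv H).choose_spec
  set 𝔖 : Finset ℕ → ℝ := fun H => (Pool.Agent.H559.SI.pS_conv H).choose with h𝔖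
  refine ⟨?_, ⟨Pool.Agent.T2H32.BF.z0_mono, Pool.Agent.T2H32.BF.z0_lim⟩, 𝔖,
    fun H => ⟨(hspec H).1, fun h => (hspec H).2 (Pool.Agent.H559.RW.adm_adm H h)⟩, ?_⟩
  · obtain ⟨Ω, i, P, a, h⟩ := Pool.Agent.T2H32.BF.exists_model
    exact ⟨Ω, i, P, a, h.measurable, h.independent, h.uniform⟩
  · intro z hz c hc Ω _ P a hmod
    have h : Pool.Agent.T2H32.BF.Model P a := ⟨hmod.measurable, hmod.independent, hmod.uniform⟩
    have hcut := Pool.Agent.H559.HY.cut_WW c hc
    filter_upwards [Pool.Agent.H559.PV.ae_OK h z (Pool.Agent.H559.HY.WW c) hz hcut] with ω hω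
    have e : R z c a ω = Pool.Agent.H559.HY.RS z (Pool.Agent.H559.HY.WW c) (fun p => a p ω) := by
      ext v
      simp only [R, Pool.Agent.H559.HY.RS, Set.mem_ofPred_eq]
      refine and_congr_right fun hv => ?_
      refine forall_congr' fun q => forall_congr' fun _ => forall_congr' fun _ => ?_
      have h0 : 0 ≤ Real.log v ^ c := Real.rpow_nonneg (Real.log_nonneg (by
        have : 1 ≤ v := by omega
        exact_mod_cast this)) c
      have h1 : (q : ℝ) ≤ Real.log v ^ c ↔ q ≤ Pool.Agent.H559.HY.WW c v := (Nat.le_floor_iff h0).symm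
      by_cases h2 : (q : ℝ) ≤ Real.log v ^ c
      · rw [if_pos h2, if_pos (h1.1 h2)]
      · rw [if_neg h2, if_neg (fun h3 => h2 (h1.2 h3))]
    rw [e]
    set T := Pool.Agent.H559.HY.RS z (Pool.Agent.H559.HY.WW c) (fun p => a p ω) with hT
    have hMF : Pool.Agent.H559.UH.MF T := Pool.Agent.H559.UH.mf (Pool.Agent.H559.UH.t_mn Pool.Agent.H559.UH.t_lb
      Pool.Agent.H559.UH.t_tl Pool.Agent.H559.UH.t_dn Pool.Agent.H559.UH.t_en) z _ _ hz hcut hω
    have hSS : ∀ H, Tendsto (Pool.Agent.H559.SI.pS H) atTop (𝓝 (𝔖 H)) ∧ (Pool.Agent.H559.UH.Adm H → 0 < 𝔖 H) :=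
      fun H => ⟨(hspec H).1, (hspec H).2⟩
    have hrho : ∀ y : ℕ, rho T y = Rstar y := by
      intro y
      obtain ⟨x0, hr⟩ := Pool.Agent.H559.RW.rough z _ hz hcut (fun p => a p ω) y
      exact Pool.Agent.H559.RW.limsup_eq T hMF y x0 hr 𝔖 hSS
    refine ⟨hrho, fun y hy => ⟨?_, ?_⟩, fun α hα => ?_⟩
    · exact Pool.Agent.H559.RW.sum_pos' y 𝔖 (fun H hH => (hSS H).2 hH)
    · obtain ⟨x0, hr⟩ := Pool.Agent.H559.RW.rough z _ hz hcut (fun p => a p ω) y
      have h1 := Pool.Agent.H559.RW.nw_lim T hMF y x0 hy hr 𝔖 hSS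
      refine h1.congr fun X => ?_
      rw [mul_div_assoc]
      rfl
    · obtain ⟨y0, h1⟩ := Pool.Agent.Y879.PR.rh_low hα
      filter_upwards [eventually_ge_atTop y0] with y hy
      rw [hrho y]
      exact h1 y hy

end Pool.Agent.Results.MP_5046ca_nt.RecordWindowsRandomSieve
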